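import Pool.Agent.helper748_mc.BinThm

set_option autoImplicit false

/-! # The strong motivic monodromy conjecture for the forms `h x₂ ^ j (a x₂ ^ k + b) ^ n`

Let `f` be a form of degree `d` in three variables which is in some linear coordinates of the form
`h x₂ ^ j (a x₂ ^ k + b) ^ n`, with `h`, `a`, `b` in `x₀`, `x₁`, such that `h a b` has enough
roots, counted as in `BinomialForm`. The global and the local motivic zeta functions of `f` are
computed from the curve by blowing up points, see `ConeGlobalMot` and `ConeMot` (for the principal
ideal `(f)`). All poles except possibly `-3/d` are known to be roots of `b_f` (`proj_of`), so that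
the question is whether `b_f(-3/d) = 0`. Such a form can be unstable, with a log canonical
threshold smaller than `3/d`, for example `x₂ ^ 5 + x₀ ^ 3 (x₀ ^ 2 - x₁ ^ 2)`.

The proof of `b(-3/d) = 0`, for a form `g` in the class (here `g = f`):

* `ex_main`: a functional equation gives an identity
  `b(c) g ^ (K + 1) = ∑ (g ∂_i v_i(c) + (c - K) (∂_i g) v_i(c))` with forms `v_i(c)` of the degree
  `d K + 1` which depend polynomially on `c`; so `b(c) g ^ c` is the divergence of `v(c) g ^ (c - K)`;
* `exact_two`: for `c = -3/d` this gives such an identity in the two variables `x₀`, `x₂`;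
* `exists_betaSys`, `Fn`, `Fn_exact`: for `x₀ = t`, `x₁ = 1` the integrals of `x₂ ^ m g ^ (-3/d)`
  over `x₂` are beta integrals; as `θ` and `μ` are not integers, they can be defined by analytic
  continuation, and they vanish on derivatives with respect to `x₂`;
* `gP_deriv`, `gP_poly`, `bin_eq`: their derivatives with respect to `t`; this gives a differential
  equation of the first order with a solution `κ / (h a b) ^ M`, `κ` a polynomial;
* `ord_ode`: the order of the solution at each root of `h a b`; `ode_count`: the sum of these orders
  would be greater than the degree of `κ`. (So the integral of `g ^ (-3/d) Ω` over the lines through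
  `(0 : 0 : 1)` is a form `∏ (t - t_i) ^ e_i dt` which is not exact.) -/

namespace Pool.Agent.Results.MP_b07157_ag.BinomialForms

open MvPolynomial Pool.Agent.W574.CN Pool.Agent.W574.MO Pool.Agent.W574.HS Pool.Agent.W574.SM
  Pool.Agent.H628R4.TP Pool.Agent.Helper748.MC

/-- **The strong motivic monodromy conjecture (global and local) holds for the forms `f` of degree `d`
in three variables** with `BinomialForm d f`: `f` is in some linear coordinates of the form `h x₂
^ j (a x₂ ^ k + b) ^ n`, with `h`, `a`, `b` in `x₀`, `x₁`, such that `h a b` has enough roots.
Here `b` is any polynomial which satisfies a global or local functional equation `b(s) f ^ s =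
P(s) f ^ (s + 1)`, in particular the Bernstein-Sato polynomial of `f`, and `Z` is the global or
local motivic zeta function of `f`. The conclusion is that `Z` lies in the ring `M[T][(1 - L⁻ⁿ
Tᵃ)⁻¹]`, where the pairs `a, n ≥ 1` are such that `-n/a` is a root of `b`. -/
theorem result {M : Type} [CommRing M] (L : Mˣ) (f : MvPolynomial (Fin 3) ℂ) (d : ℕ)
    (hf : f.IsHomogeneous d) (h : BinomialForm d f) (b : Polynomial ℂ)
    (hb : IsBFunction f b ∨ IsLocalBFunction f b) (Z : PowerSeries M)
    (hZ : ConeGlobalMot L (fun _ : Unit => f) d Z ∨ ConeMot L (fun _ : Unit => f) d Z) :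
    Z ∈ DenRing L (RootPair b) := by
  have hb' := global_of f (not_exact_bin hf h).1 d hf b hb
  have hb2 := funEq_unit f b hb'
  have hr := bin_single f d hf h b hb'
  rcases hZ with hZ | hZ
  · exact mot_global_of L (fun _ : Unit => f) d h.pos (fun _ => hf) b hb2 hr Z hZ
  · exact mot_local_of L (fun _ : Unit => f) d (fun _ => hf) b hb2 hr Z hZ

end Pool.Agent.Results.MP_b07157_ag.BinomialForms
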