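import Pool.Agent.helper748_mc.FanThm

set_option autoImplicit false

/-! # The strong motivic monodromy conjecture for plane curves of degree `d` with a point of multiplicity `d - 1`

Let `f` be a form of degree `d > 0` in three variables such that the curve `f = 0` in the projective
plane has a point of multiplicity `d - 1`, and such that some line which is a simple factor of the
tangent cone at this point is not a component of the curve. The global and the local motivic zeta
functions of `f` are computed from the curve by blowing up points, see `ConeGlobalMot` and `ConeMot`
(for the principal ideal `(f)`). All poles except possibly `-3/d` are known to be roots of `b_f`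
(`proj_of`), so that the question is whether `b_f(-3/d) = 0`. For `d > 3` such a form is unstable,
and its log canonical threshold is smaller than `3/d`.

The proof of `b(-3/d) = 0`, for a form `g` in the class (here `g = f`):

* `ex_main`: a functional equation gives an identity
  `b(c) g ^ (K + 1) = ∑ (g ∂_i v_i(c) + (c - K) (∂_i g) v_i(c))` with forms `v_i(c)` of the degree
  `d K + 1` which depend polynomially on `c`; so `b(c) g ^ c` is the divergence of `v(c) g ^ (c - K)`;
* `exact_two`: for `c = -3/d` this gives such an identity in the two variables `x₀`, `x₂`;
* `exists_primz`, `fibre_eq`: as `g = x₂ A + B` has the degree `1` in `x₂`, and as `3/d` is not an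
  integer, one can integrate uniquely over `x₂`, at the cost of powers of `A` in the denominator;
* `order_contra`: this gives a differential equation in one variable for the value of the integral
  at `x₂ = 0`, and a comparison of the orders of the poles at a simple zero of `A` at which `B` does
  not vanish gives a contradiction. (This is the residue of `g ^ (1 - 3/d) / A` at this point.)

For `d = 3` the number `-3/d = -1` is always a root. -/

namespace Pool.Agent.Results.MP_b07157_ag.LargeMultiplicityForms

open MvPolynomial Pool.Agent.W574.CN Pool.Agent.W574.MO Pool.Agent.W574.HS Pool.Agent.W574.SM
  Pool.Agent.H628R4.TP Pool.Agent.Helper748.MC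

/-- **The strong motivic monodromy conjecture (global and local) holds for the forms `f` of degree
`d` in three variables** such that, in some linear coordinates,
`f = x₀ x₂ a(x₀, x₁) + b(x₀, x₁)` with `a(0, 1) ≠ 0` and `b(0, 1) ≠ 0`; that is, the curve `f = 0` has a
point of multiplicity `d - 1`, and some line which is a simple factor of the tangent cone at this
point is not a component of the curve. Here `b` is any polynomial
which satisfies a global or local functional equation `b(s) f ^ s = P(s) f ^ (s + 1)`, in particular
the Bernstein-Sato polynomial of `f`, and `Z` is the global or local motivic zeta function of `f`.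
The conclusion is that `Z` lies in the ring `M[T][(1 - L⁻ⁿ Tᵃ)⁻¹]`, where the pairs `a, n ≥ 1` are
such that `-n/a` is a root of `b`. -/
theorem result {M : Type} [CommRing M] (L : Mˣ) (f : MvPolynomial (Fin 3) ℂ) (d : ℕ) (hd : 0 < d)
    (hf : f.IsHomogeneous d) (h : FanForm f) (b : Polynomial ℂ)
    (hb : IsBFunction f b ∨ IsLocalBFunction f b) (Z : PowerSeries M)
    (hZ : ConeGlobalMot L (fun _ : Unit => f) d Z ∨ ConeMot L (fun _ : Unit => f) d Z) :
    Z ∈ DenRing L (RootPair b) := by
  have hb' := global_of f h.ne_zero d hf b hb
  have hb2 := funEq_unit f b hb'
  have hr := fan_single f d hd hf h b hb'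
  rcases hZ with hZ | hZ
  · exact mot_global_of L (fun _ : Unit => f) d hd (fun _ => hf) b hb2 hr Z hZ
  · exact mot_local_of L (fun _ : Unit => f) d (fun _ => hf) b hb2 hr Z hZ

end Pool.Agent.Results.MP_b07157_ag.LargeMultiplicityForms
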