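import Pool.Agent.helper748_mc.QuadThm

set_option autoImplicit false

/-! # The strong motivic monodromy conjecture for plane curves of degree `d` with a point of multiplicity `d - 2`

Let `f` be a form of degree `d` in three variables such that the curve `f = 0` in the projective
plane has a point of multiplicity `d - 2`, `d` is not a divisor of `6`, and the double covering of
the projective line which is given by the lines through this point has enough special fibres,
counted as in `QuadForm`. The global and the local motivic zeta functions of `f` are computed from
the curve by blowing up points, see `ConeGlobalMot` and `ConeMot` (for the principal ideal `(f)`).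
All poles except possibly `-3/d` are known to be roots of `b_f` (`proj_of`), so that the question
is whether `b_f(-3/d) = 0`. For `d > 6` such a form is unstable, and its log canonical threshold
is smaller than `3/d`.

The proof of `b(-3/d) = 0`, for a form `g` in the class (here `g = f`):

* `ex_main`: a functional equation gives an identity
  `b(c) g ^ (K + 1) = ∑ (g ∂_i v_i(c) + (c - K) (∂_i g) v_i(c))` with forms `v_i(c)` of the degree
  `d K + 1` which depend polynomially on `c`; so `b(c) g ^ c` is the divergence of `v(c) g ^ (c - K)`;
* `exact_two`: for `c = -3/d` this gives such an identity in the two variables `x₀`, `x₂`;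
* `exists_red`, `chain`, `red_G0`, `quad_eq`: as `g = A x₂ ^ 2 + B x₂ + C` has the degree `2` in
  `x₂`, and as `6/d` is not an integer, one can reduce modulo derivatives with respect to `x₂`, at
  the cost of powers of `A`, to polynomials in `x₀`, `x₁`; this gives a differential equation of the
  first order in the variable `x₀`, with the discriminant `D = B ^ 2 - 4 A C`;
* `ord_at`: the order of its solution at each root of `A D`; `quad_count`: the sum of these orders
  would be greater than the degree of the solution. (So the integral of `g ^ (-3/d) Ω`
  over the lines through the point is a form `∏ (t - t_i) ^ e_i dt` which is not exact.) -/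

namespace Pool.Agent.Results.MP_b07157_ag.MultiplicityMinusTwoForms

open MvPolynomial Pool.Agent.W574.CN Pool.Agent.W574.MO Pool.Agent.W574.HS Pool.Agent.W574.SM
  Pool.Agent.H628R4.TP Pool.Agent.Helper748.MC

/-- **The strong motivic monodromy conjecture (global and local) holds for the forms `f` of degree `d`
in three variables** with `QuadForm d f`, `d` not a divisor of `6`: the curve `f = 0` has a point
of multiplicity `d - 2`, and the double covering of the projective line which is given by the
lines through this point has enough special fibres, counted as in `QuadForm`. Here `b` is any
polynomial which satisfies a global or local functional equation `b(s) f ^ s = P(s) f ^ (s + 1)`,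
in particular the Bernstein-Sato polynomial of `f`, and `Z` is the global or local motivic zeta
function of `f`. The conclusion is that `Z` lies in the ring `M[T][(1 - L⁻ⁿ Tᵃ)⁻¹]`, where the
pairs `a, n ≥ 1` are such that `-n/a` is a root of `b`. -/
theorem result {M : Type} [CommRing M] (L : Mˣ) (f : MvPolynomial (Fin 3) ℂ) (d : ℕ) (hd : ¬ d ∣ 6)
    (hf : f.IsHomogeneous d) (h : QuadForm d f) (b : Polynomial ℂ)
    (hb : IsBFunction f b ∨ IsLocalBFunction f b) (Z : PowerSeries M)
    (hZ : ConeGlobalMot L (fun _ : Unit => f) d Z ∨ ConeMot L (fun _ : Unit => f) d Z) :
    Z ∈ DenRing L (RootPair b) := by
  have hb' := global_of f (not_exact_quad hd hf h).1 d hf b hb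
  have hb2 := funEq_unit f b hb'
  have hr := quad_single f d hd hf h b hb'
  rcases hZ with hZ | hZ
  · exact mot_global_of L (fun _ : Unit => f) d h.pos (fun _ => hf) b hb2 hr Z hZ
  · exact mot_local_of L (fun _ : Unit => f) d (fun _ => hf) b hb2 hr Z hZ

end Pool.Agent.Results.MP_b07157_ag.MultiplicityMinusTwoForms
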