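import Pool.Agent.helper748_mc.Thm

set_option autoImplicit false

/-! # The strong motivic monodromy conjecture for strictly semistable forms in three variables

Let `f` be a form of degree `d > 0` in three variables. The global and the local motivic zeta
functions of `f` are computed from the curve `f = 0` in the projective plane by blowing up points,
see `ConeGlobalMot` and `ConeMot` (for the principal ideal `(f)`). All poles except possibly `-3/d`
are known to be roots of `b_f` (`proj_of`), so that the question is whether `b_f(-3/d) = 0`.

The proof of `b_f(-3/d) = 0`:

* `ex_main`: a functional equation gives an identity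
  `b(c) f ^ (K + 1) = ∑ (f ∂_i v_i(c) + (c - K) (∂_i f) v_i(c))` with forms `v_i(c)` of the degree
  `d K + 1` which depend polynomially on `c`; so `b(c) f ^ c` is the divergence of `v(c) f ^ (c - K)`;
* `exact_initial`: if `f ^ s` is such a divergence, and all monomials of `f` have a weight `≥ 0`
  for a weight `w` with the sum `0`, then the same holds for the part of the weight `0` of `f`;
* `log_eq`, `uni_main`: if moreover the barycenter lies in the convex hull of the monomials of the
  weight `0`, one gets a differential equation in one variable which has no solution for
  `s = -3/d`;
* `exists_face`: for strictly semistable forms there are linear coordinates in which this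
  applies. -/

namespace Pool.Agent.Results.MP_b07157_ag.StrictlySemistableForms

open MvPolynomial Pool.Agent.W574.CN Pool.Agent.W574.MO Pool.Agent.H628R4.TP
  Pool.Agent.Helper748.MC

/-- **The strong motivic monodromy conjecture (global and local) holds for strictly semistable
forms in three variables**, and more generally for all forms `f` of degree `d` in three variables
such that, in some linear coordinates, the barycenter `(d/3, d/3, d/3)` is on the boundary of the
Newton polygon of `f`, on an edge (or vertex) which contains no permutation of `(0, d/3, 2d/3)`.
Here `b` is any polynomial which satisfies a global or local functional equation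
`b(s) f ^ s = P(s) f ^ (s + 1)`, in particular the Bernstein-Sato polynomial of `f`, and `Z` is the
global or local motivic zeta function of `f`. The conclusion is that `Z` lies in the ring
`M[T][(1 - L⁻ⁿ Tᵃ)⁻¹]`, where the pairs `a, n ≥ 1` are such that `-n/a` is a root of `b`. -/
theorem result {M : Type} [CommRing M] (L : Mˣ) (f : MvPolynomial (Fin 3) ℂ) (d : ℕ) (hd : 0 < d)
    (hf : f.IsHomogeneous d) (h : StrictlySemistable f ∨ BoundaryForm d f) (b : Polynomial ℂ)
    (hb : IsBFunction f b ∨ IsLocalBFunction f b) (Z : PowerSeries M)
    (hZ : ConeGlobalMot L (fun _ : Unit => f) d Z ∨ ConeMot L (fun _ : Unit => f) d Z) :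
    Z ∈ DenRing L (RootPair b) := by
  obtain ⟨hf0, hE⟩ := not_exact_of hd hf h
  have hb' : IsBFunction f b := by
    rcases hb with hb | hb
    · exact hb
    · exact global_of_local f hf0 d hf b hb
  have hl : lcomb (fun _ : Unit => f) (fun _ => 1) = f := by
    rw [lcomb, Finset.univ_unique, Finset.sum_singleton, C_1, one_mul]
  have hb2 := funEq_unit f b hb'
  have hr := root_of_not_exact (fun _ : Unit => f) d hd (fun _ => hf) b hb2
    (fun _ => 1) (by rw [hl]; exact hf0) (by rw [hl]; exact hE)
  rcases hZ with hZ | hZ
  · exact mot_global_of L (fun _ : Unit => f) d hd (fun _ => hf) b hb2 hr Z hZ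
  · exact mot_local_of L (fun _ : Unit => f) d (fun _ => hf) b hb2 hr Z hZ

end Pool.Agent.Results.MP_b07157_ag.StrictlySemistableForms
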